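import Pool.Agent.Helper67.RG.GStmts

/-!
# Module EMB: the graded embedding of the section ring of `X` into that of `Y`
-/

namespace Pool.Agent.Helper26.RG

open Pool.Agent.Helper67.RG
open MvPolynomial

/-- integral elements satisfy a monic equation with coefficients lifted to polynomials -/
theorem emb_lift {R : Type} [CommRing R] [Algebra ℂ R] (x : Fin 12 → R) (c : R)
    (h : IsIntegral (Algebra.adjoin ℂ (Set.range x)) c) :
    ∃ Q : Polynomial (MvPolynomial (Fin 12) ℂ), Q.Monic ∧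
      Q.eval₂ (aeval x : MvPolynomial (Fin 12) ℂ →ₐ[ℂ] R).toRingHom c = 0 := by
  rw [Algebra.adjoin_range_eq_range_aeval] at h
  obtain ⟨p, hp, hpe⟩ := h
  have hs : Function.Surjective
      ((aeval x : MvPolynomial (Fin 12) ℂ →ₐ[ℂ] R).rangeRestrict).toRingHom :=
    (aeval x : MvPolynomial (Fin 12) ℂ →ₐ[ℂ] R).rangeRestrict_surjective
  have hl : p ∈ Polynomial.lifts
      ((aeval x : MvPolynomial (Fin 12) ℂ →ₐ[ℂ] R).rangeRestrict).toRingHom := by
    rw [Polynomial.mem_lifts]
    exact Polynomial.map_surjective _ hs p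
  obtain ⟨q, hq, -, hqm⟩ := Polynomial.lifts_and_natDegree_eq_and_monic hl hp
  refine ⟨q, hqm, ?_⟩
  rw [← hq, Polynomial.eval₂_map] at hpe
  exact hpe

/-- a nonzero element satisfying a nontrivial equation divides a nonzero polynomial -/
theorem emb_mult {M R : Type} [CommRing M] [CommRing R] [IsDomain R] (f : M →+* R) (c : R) :
    ∀ (n : ℕ) (Q : Polynomial M), Q.natDegree ≤ n → Q.map f ≠ 0 → Q.eval₂ f c = 0 → c ≠ 0 →
      ∃ (G : Polynomial M) (s : M), f s ≠ 0 ∧ c * G.eval₂ f c = f s := by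
  intro n
  induction n with
  | zero =>
    intro Q hQ hm he hc
    exfalso
    have h0 : Q = Polynomial.C (Q.coeff 0) := Polynomial.eq_C_of_natDegree_le_zero hQ
    rw [h0, Polynomial.eval₂_C] at he
    apply hm
    rw [h0, Polynomial.map_C, he, map_zero]
  | succ n ih =>
    intro Q hQ hm he hc
    have hd : Q = Polynomial.X * Q.divX + Polynomial.C (Q.coeff 0) := (Q.X_mul_divX_add).symm
    have he' : c * Q.divX.eval₂ f c + f (Q.coeff 0) = 0 := by
      rw [hd, Polynomial.eval₂_add, Polynomial.eval₂_mul, Polynomial.eval₂_X,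
        Polynomial.eval₂_C] at he
      exact he
    by_cases h0 : f (Q.coeff 0) = 0
    · rw [h0, add_zero] at he'
      have he2 : Q.divX.eval₂ f c = 0 := (mul_eq_zero.mp he').resolve_left hc
      refine ih Q.divX ?_ ?_ he2 hc
      · rw [Polynomial.natDegree_divX_eq_natDegree_tsub_one]; omega
      · intro hz
        apply hm
        rw [hd, Polynomial.map_add, Polynomial.map_mul, hz, mul_zero, Polynomial.map_C, h0,
          map_zero, add_zero]
    · refine ⟨-Q.divX, Q.coeff 0, h0, ?_⟩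
      rw [Polynomial.eval₂_neg, mul_neg]
      exact neg_eq_of_add_eq_zero_right he'

/-- nonzero elements times suitable elements are nonzero values of polynomials in the `x i` -/
theorem emb_norm {R : Type} [CommRing R] [IsDomain R] [Algebra ℂ R] (x : Fin 12 → R) (c : R)
    (hc : c ≠ 0) (h : IsIntegral (Algebra.adjoin ℂ (Set.range x)) c) :
    ∃ (G : Polynomial (MvPolynomial (Fin 12) ℂ)) (s : MvPolynomial (Fin 12) ℂ),
      aeval x s ≠ 0 ∧
        c * G.eval₂ (aeval x : MvPolynomial (Fin 12) ℂ →ₐ[ℂ] R).toRingHom c = aeval x s := by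
  obtain ⟨Q, hQ, he⟩ := emb_lift x c h
  have hm : Q.map (aeval x : MvPolynomial (Fin 12) ℂ →ₐ[ℂ] R).toRingHom ≠ 0 :=
    (hQ.map _).ne_zero
  exact emb_mult _ c Q.natDegree Q le_rfl hm he hc

section

variable {g d : ℕ} {X : Pair g d} (E : Ex X.R X.gr) {N : ℕ} (D : RootData X.R X.gr E.x E.ν N)
  {Y : Pair g d} (ξ : Fin 12 → Y.R)
  (hk : ∀ P : MvPolynomial (Fin 12) ℂ, aeval ξ P = 0 ↔ aeval E.x P = 0)
  (W : Y.R) (hW : W ^ E.ν = aeval ξ (D.P D.i0))

/-- the ring map with values in `X.R` -/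
noncomputable def psi : Polynomial (MvPolynomial (Fin 12) ℂ) →+* X.R :=
  Polynomial.eval₂RingHom (aeval E.x : MvPolynomial (Fin 12) ℂ →ₐ[ℂ] X.R).toRingHom (D.a D.i0)

/-- the ring map with values in a ring containing the `ξ i` and `W` -/
noncomputable def psi' : Polynomial (MvPolynomial (Fin 12) ℂ) →+* Y.R :=
  Polynomial.eval₂RingHom (aeval ξ : MvPolynomial (Fin 12) ℂ →ₐ[ℂ] Y.R).toRingHom W

theorem psi_C (p : MvPolynomial (Fin 12) ℂ) : psi E D (Polynomial.C p) = aeval E.x p := by
  simp [psi]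

theorem psi'_C (p : MvPolynomial (Fin 12) ℂ) : psi' ξ W (Polynomial.C p) = aeval ξ p := by
  simp [psi']

include hk hW in
theorem psi_ker_le (h : Polynomial (MvPolynomial (Fin 12) ℂ)) (h0 : psi E D h = 0) :
    psi' ξ W h = 0 := by
  have hν := E.hν
  set G : Polynomial (MvPolynomial (Fin 12) ℂ) :=
    Polynomial.X ^ E.ν - Polynomial.C (D.P D.i0) with hG
  have hGm : G.Monic := Polynomial.monic_X_pow_sub_C _ (by omega)
  have hGd : G.natDegree = E.ν := Polynomial.natDegree_X_pow_sub_C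
  have hG1 : G ≠ 1 := by
    intro h1
    rw [h1, Polynomial.natDegree_one] at hGd
    omega
  have hdeg : (h %ₘ G).natDegree < E.ν := by
    have := Polynomial.natDegree_modByMonic_lt h hGm hG1
    rwa [hGd] at this
  have hdec : h %ₘ G + G * (h /ₘ G) = h := Polynomial.modByMonic_add_div h G
  have hGx : psi E D G = 0 := by
    simp [psi, hG, D.haP]
  have hGy : psi' ξ W G = 0 := by
    simp [psi', hG, hW]
  have h1 : psi E D (h %ₘ G) = 0 := by
    rw [← hdec, map_add, map_mul, hGx, zero_mul, add_zero] at h0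
    exact h0
  have h2 : ∑ i : Fin E.ν, aeval E.x ((h %ₘ G).coeff i) * D.a D.i0 ^ (i : ℕ) = 0 := by
    rw [← h1]
    unfold psi
    rw [Polynomial.coe_eval₂RingHom, Polynomial.eval₂_eq_sum_range' _ hdeg,
      ← Fin.sum_univ_eq_sum_range (fun i => (aeval E.x :
        MvPolynomial (Fin 12) ℂ →ₐ[ℂ] X.R).toRingHom ((h %ₘ G).coeff i) * D.a D.i0 ^ i)]
    rfl
  have h3 := D.irr (fun i : Fin E.ν => (h %ₘ G).coeff i) h2
  rw [← hdec, map_add, map_mul, hGy, zero_mul, add_zero]
  unfold psi'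
  rw [Polynomial.coe_eval₂RingHom, Polynomial.eval₂_eq_sum_range' _ hdeg]
  refine Finset.sum_eq_zero fun i hi => ?_
  have h4 : aeval ξ ((h %ₘ G).coeff i) = 0 := by
    rw [hk]
    exact h3 ⟨i, Finset.mem_range.mp hi⟩
  have h5 : (aeval ξ : MvPolynomial (Fin 12) ℂ →ₐ[ℂ] Y.R).toRingHom ((h %ₘ G).coeff i) = 0 := h4
  rw [h5, zero_mul]

include hk hW in
theorem psi_ker_iff (h : Polynomial (MvPolynomial (Fin 12) ℂ)) :
    psi E D h = 0 ↔ psi' ξ W h = 0 := by
  refine ⟨psi_ker_le E D ξ hk W hW h, fun h0 => ?_⟩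
  by_contra hc
  obtain ⟨G, s, hs, he⟩ := emb_norm E.x (psi E D h) hc (E.integral _)
  have h1 : psi E D (h * G.comp h - Polynomial.C s) = 0 := by
    have h2 : psi E D (G.eval₂ Polynomial.C h)
        = G.eval₂ (aeval E.x : MvPolynomial (Fin 12) ℂ →ₐ[ℂ] X.R).toRingHom (psi E D h) := by
      rw [Polynomial.hom_eval₂]
      have : (psi E D).comp Polynomial.C
          = (aeval E.x : MvPolynomial (Fin 12) ℂ →ₐ[ℂ] X.R).toRingHom := by
        refine RingHom.ext fun p => ?_
        rw [RingHom.comp_apply, psi_C]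
        rfl
      rw [this]
    rw [map_sub, map_mul, Polynomial.comp, h2, psi_C, he, sub_self]
  have h2 := psi_ker_le E D ξ hk W hW _ h1
  rw [map_sub, map_mul, h0, zero_mul, zero_sub, neg_eq_zero, psi'_C, hk] at h2
  exact hs h2

/-- every element of `X.R` is a fraction -/
theorem emb_frac (c : X.R) : ∃ (p : MvPolynomial (Fin 12) ℂ)
    (h : Polynomial (MvPolynomial (Fin 12) ℂ)), aeval E.x p ≠ 0 ∧
      aeval E.x p * c = psi E D h := by
  classical
  induction c using DirectSum.Decomposition.inductionOn X.gr with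
  | zero => exact ⟨1, 0, by simp, by simp⟩
  | homogeneous m =>
    rename_i n
    obtain ⟨e, p, s, -, hp, -, hs⟩ := D.frac n m m.2
    refine ⟨p, ∑ i : Fin E.ν, Polynomial.C (s i) * Polynomial.X ^ (i : ℕ), hp, ?_⟩
    rw [hs, map_sum]
    refine Finset.sum_congr rfl fun i _ => ?_
    rw [map_mul, psi_C, map_pow]
    simp [psi]
  | add m m' ih ih' =>
    obtain ⟨p, h, hp, e⟩ := ih
    obtain ⟨p', h', hp', e'⟩ := ih'
    refine ⟨p * p', Polynomial.C p' * h + Polynomial.C p * h', ?_, ?_⟩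
    · rw [map_mul]; exact mul_ne_zero hp hp'
    · rw [map_add, map_mul (psi E D), map_mul (psi E D), psi_C, psi_C, ← e, ← e', map_mul]
      ring

include hk hW in
/-- existence of the image -/
theorem emb_exists (c : X.R) (p : MvPolynomial (Fin 12) ℂ)
    (h : Polynomial (MvPolynomial (Fin 12) ℂ)) (hp : aeval E.x p ≠ 0)
    (he : aeval E.x p * c = psi E D h) : ∃ y : Y.R, aeval ξ p * y = psi' ξ W h := by
  have hp' : aeval ξ p ≠ 0 := fun h0 => hp ((hk p).mp h0)
  obtain ⟨Q, hQ, hQ0⟩ := emb_lift E.x c (E.integral c)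
  set K := FractionRing Y.R
  set ι := algebraMap Y.R K with hι
  have hinj : Function.Injective ι := IsFractionRing.injective Y.R K
  have hpK : ι (aeval ξ p) ≠ 0 := by
    intro h0
    exact hp' (hinj (by rw [h0, map_zero]))
  set z : K := ι (psi' ξ W h) / ι (aeval ξ p) with hz
  -- homogenized equation
  set n := Q.natDegree with hn
  set H : Polynomial (MvPolynomial (Fin 12) ℂ) :=
    ∑ i ∈ Finset.range (n + 1), Polynomial.C (Q.coeff i) * h ^ i * Polynomial.C p ^ (n - i) with hH
  have hHx : psi E D H = 0 := by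
    have h1 : psi E D H = aeval E.x p ^ n *
        Q.eval₂ (aeval E.x : MvPolynomial (Fin 12) ℂ →ₐ[ℂ] X.R).toRingHom c := by
      rw [hH, map_sum, Polynomial.eval₂_eq_sum_range, Finset.mul_sum]
      refine Finset.sum_congr rfl fun i hi => ?_
      rw [map_mul, map_mul, map_pow, map_pow, psi_C, psi_C, ← he]
      have hin : i ≤ n := Nat.lt_succ_iff.mp (Finset.mem_range.mp hi)
      have h2 : (aeval E.x : MvPolynomial (Fin 12) ℂ →ₐ[ℂ] X.R).toRingHom (Q.coeff i)
        = aeval E.x (Q.coeff i) := rfl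
      rw [h2]
      have h3 : aeval E.x p ^ n = aeval E.x p ^ i * aeval E.x p ^ (n - i) := by
        rw [← pow_add]; congr 1; omega
      rw [h3, mul_pow]
      ring
    rw [h1, hQ0, mul_zero]
  have hHy : psi' ξ W H = 0 := psi_ker_le E D ξ hk W hW H hHx
  have hzint : IsIntegral Y.R z := by
    refine ⟨Q.map (aeval ξ : MvPolynomial (Fin 12) ℂ →ₐ[ℂ] Y.R).toRingHom, hQ.map _, ?_⟩
    rw [Polynomial.eval₂_map, Polynomial.eval₂_eq_sum_range]
    have h1 : ι (aeval ξ p) ^ n * ∑ i ∈ Finset.range (Q.natDegree + 1),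
        ((algebraMap Y.R K).comp (aeval ξ : MvPolynomial (Fin 12) ℂ →ₐ[ℂ] Y.R).toRingHom)
          (Q.coeff i) * z ^ i = ι (psi' ξ W H) := by
      rw [hH, map_sum, map_sum, Finset.mul_sum]
      refine Finset.sum_congr rfl fun i hi => ?_
      have hin : i ≤ n := Nat.lt_succ_iff.mp (Finset.mem_range.mp hi)
      have h2 : ((algebraMap Y.R K).comp (aeval ξ : MvPolynomial (Fin 12) ℂ →ₐ[ℂ] Y.R).toRingHom)
          (Q.coeff i) = ι (aeval ξ (Q.coeff i)) := rfl
      rw [h2, map_mul (psi' ξ W), map_mul (psi' ξ W), map_pow (psi' ξ W), map_pow (psi' ξ W),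
        psi'_C, psi'_C, map_mul ι, map_mul ι, map_pow ι, map_pow ι]
      have h3 : ι (aeval ξ p) ^ n = ι (aeval ξ p) ^ i * ι (aeval ξ p) ^ (n - i) := by
        rw [← pow_add]; congr 1; omega
      have h4 : ι (aeval ξ p) ^ i * z ^ i = ι (psi' ξ W h) ^ i := by
        rw [← mul_pow, hz, mul_div_cancel₀ _ hpK]
      rw [h3, ← h4]
      ring
    rw [hHy, map_zero] at h1
    exact (mul_eq_zero.mp h1).resolve_left (pow_ne_zero _ hpK)
  obtain ⟨y, hy⟩ := IsIntegrallyClosed.isIntegral_iff.mp hzint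
  refine ⟨y, hinj ?_⟩
  rw [map_mul]
  have : ι y = z := hy
  rw [this, hz, mul_div_cancel₀ _ hpK]

/-- the graph of the embedding -/
def Gph (c : X.R) (y : Y.R) : Prop :=
  ∃ (p : MvPolynomial (Fin 12) ℂ) (h : Polynomial (MvPolynomial (Fin 12) ℂ)),
    aeval E.x p ≠ 0 ∧ aeval E.x p * c = psi E D h ∧ aeval ξ p * y = psi' ξ W h

include hk hW in
theorem gph_unique {c : X.R} {y y' : Y.R} (h : Gph E D ξ W c y) (h' : Gph E D ξ W c y') :
    y = y' := by
  obtain ⟨p, H, hp, e1, e2⟩ := h
  obtain ⟨p', H', hp', e1', e2'⟩ := h'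
  have hq : aeval ξ p ≠ 0 := fun h0 => hp ((hk p).mp h0)
  have hq' : aeval ξ p' ≠ 0 := fun h0 => hp' ((hk p').mp h0)
  have h1 : psi E D (Polynomial.C p' * H - Polynomial.C p * H') = 0 := by
    rw [map_sub, map_mul, map_mul, psi_C, psi_C, ← e1, ← e1']
    ring
  have h2 := psi_ker_le E D ξ hk W hW _ h1
  rw [map_sub, map_mul, map_mul, psi'_C, psi'_C, ← e2, ← e2'] at h2
  have h3 : (aeval ξ p * aeval ξ p') * (y - y') = 0 := by
    rw [← h2]; ring
  exact sub_eq_zero.mp ((mul_eq_zero.mp h3).resolve_left (mul_ne_zero hq hq'))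

include hk hW in
theorem gph_total (c : X.R) : ∃ y, Gph E D ξ W c y := by
  obtain ⟨p, h, hp, he⟩ := emb_frac E D c
  obtain ⟨y, hy⟩ := emb_exists E D ξ hk W hW c p h hp he
  exact ⟨y, p, h, hp, he, hy⟩

theorem gph_add {c c' : X.R} {y y' : Y.R} (h : Gph E D ξ W c y) (h' : Gph E D ξ W c' y') :
    Gph E D ξ W (c + c') (y + y') := by
  obtain ⟨p, H, hp, e1, e2⟩ := h
  obtain ⟨p', H', hp', e1', e2'⟩ := h'
  refine ⟨p * p', Polynomial.C p' * H + Polynomial.C p * H', ?_, ?_, ?_⟩
  · rw [map_mul]; exact mul_ne_zero hp hp'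
  · rw [map_add, map_mul (psi E D), map_mul (psi E D), psi_C, psi_C, ← e1, ← e1', map_mul]
    ring
  · rw [map_add, map_mul (psi' ξ W), map_mul (psi' ξ W), psi'_C, psi'_C, ← e2, ← e2', map_mul]
    ring

theorem gph_mul {c c' : X.R} {y y' : Y.R} (h : Gph E D ξ W c y) (h' : Gph E D ξ W c' y') :
    Gph E D ξ W (c * c') (y * y') := by
  obtain ⟨p, H, hp, e1, e2⟩ := h
  obtain ⟨p', H', hp', e1', e2'⟩ := h'
  refine ⟨p * p', H * H', ?_, ?_, ?_⟩
  · rw [map_mul]; exact mul_ne_zero hp hp'
  · rw [map_mul (psi E D), ← e1, ← e1', map_mul]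
    ring
  · rw [map_mul (psi' ξ W), ← e2, ← e2', map_mul]
    ring

theorem gph_alg (r : ℂ) : Gph E D ξ W (algebraMap ℂ X.R r) (algebraMap ℂ Y.R r) := by
  refine ⟨1, Polynomial.C (C r), ?_, ?_, ?_⟩
  · simp
  · rw [psi_C, map_one, one_mul, ← algebraMap_eq, AlgHom.commutes]
  · rw [psi'_C, map_one, one_mul, ← algebraMap_eq, AlgHom.commutes]

end

/-- homogeneous quotients -/
theorem emb_hom {R : Type} [CommRing R] [IsDomain R] [Algebra ℂ R] (gr : ℕ → Submodule ℂ R)
    [GradedAlgebra gr] {e n : ℕ} {u y : R} (hu : u ∈ gr e) (hu0 : u ≠ 0)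
    (h : u * y ∈ gr (e + n)) : y ∈ gr n := by
  classical
  have key : ∀ j, j ≠ n → (DirectSum.decompose gr y j : R) = 0 := by
    intro j hj
    have h1 : (DirectSum.decompose gr (u * y) (e + j) : R) = u * (DirectSum.decompose gr y j : R) :=
      DirectSum.coe_decompose_mul_add_of_left_mem gr hu
    have h2 : (DirectSum.decompose gr (u * y) (e + j) : R) = 0 :=
      DirectSum.decompose_of_mem_ne gr h (by omega)
    rw [h2] at h1
    exact (mul_eq_zero.mp h1.symm).resolve_left hu0
  have h3 : (DirectSum.decompose gr y n : R) = y := by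
    conv_rhs => rw [← DirectSum.sum_support_decompose gr y]
    by_cases hn : n ∈ (DirectSum.decompose gr y).support
    · rw [Finset.sum_eq_single_of_mem n hn]
      intro j _ hj
      exact key j hj
    · rw [Finset.sum_eq_zero]
      · have : DirectSum.decompose gr y n = 0 := by
          simpa [DFinsupp.mem_support_iff] using hn
        rw [this]; rfl
      · intro j hj
        by_cases hjn : j = n
        · exact absurd (hjn ▸ hj) hn
        · exact key j hjn
  rw [← h3]
  exact (DirectSum.decompose gr y n).2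

theorem st_EMB : ST_EMB := by
  intro g d X E N D Y ξ hξ hk W hWm hW
  have hex := gph_total E D ξ hk W hW
  choose φ hφ using hex
  have huniq : ∀ {c : X.R} {y : Y.R}, Gph E D ξ W c y → φ c = y := fun h =>
    gph_unique E D ξ hk W hW (hφ _) h
  let Φ : X.R →ₐ[ℂ] Y.R :=
    { toFun := φ
      map_one' := by
        apply huniq
        have := gph_alg E D ξ W 1
        rwa [map_one, map_one] at this
      map_mul' := fun a b => huniq (gph_mul E D ξ W (hφ a) (hφ b))
      map_zero' := by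
        apply huniq
        have := gph_alg E D ξ W 0
        rwa [map_zero, map_zero] at this
      map_add' := fun a b => huniq (gph_add E D ξ W (hφ a) (hφ b))
      commutes' := fun r => huniq (gph_alg E D ξ W r) }
  have hΦ : ∀ c, Φ c = φ c := fun c => rfl
  refine ⟨Φ, ?_, ?_⟩
  · rw [injective_iff_map_eq_zero]
    intro c hc
    obtain ⟨p, H, hp, e1, e2⟩ := hφ c
    rw [← hΦ, hc, mul_zero] at e2
    have h1 := (psi_ker_iff E D ξ hk W hW H).mpr e2.symm
    rw [h1] at e1
    exact (mul_eq_zero.mp e1).resolve_left hp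
  · intro n z hz
    obtain ⟨e, p, s, hpe, hp, hs, hsum⟩ := D.frac n z hz
    have hq : aeval ξ p ≠ 0 := fun h0 => hp ((hk p).mp h0)
    set H : Polynomial (MvPolynomial (Fin 12) ℂ) :=
      ∑ i : Fin E.ν, Polynomial.C (s i) * Polynomial.X ^ (i : ℕ) with hH
    have e1 : aeval E.x p * z = psi E D H := by
      rw [hsum, hH, map_sum]
      refine Finset.sum_congr rfl fun i _ => ?_
      rw [map_mul, psi_C, map_pow]
      simp [psi]
    obtain ⟨y, hy⟩ := emb_exists E D ξ hk W hW z p H hp e1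
    have hzy : Φ z = y := huniq ⟨p, H, hp, e1, hy⟩
    -- homogeneity of values
    have haev : ∀ (k : ℕ) (P : MvPolynomial (Fin 12) ℂ), P.IsHomogeneous k →
        aeval ξ P ∈ Y.gr k := by
      intro k P hP
      rw [MvPolynomial.aeval_def, MvPolynomial.eval₂_eq]
      refine Submodule.sum_mem _ fun m hm => ?_
      have hdeg : ∑ i ∈ m.support, m i = k := by
        have := hP (MvPolynomial.mem_support_iff.mp hm)
        rw [Finsupp.weight_apply] at this
        simpa [Finsupp.sum] using this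
      rw [← Algebra.smul_def]
      refine Submodule.smul_mem _ _ ?_
      rw [← hdeg]
      refine SetLike.prod_mem_graded _ _ _ fun i _ => ?_
      have := SetLike.pow_mem_graded (m i) (hξ i)
      simpa using this
    have hval : psi' ξ W H ∈ Y.gr (e + n) := by
      rw [hH, map_sum]
      refine Submodule.sum_mem _ fun i _ => ?_
      rw [map_mul, psi'_C, map_pow]
      have hX : psi' ξ W Polynomial.X = W := by simp [psi']
      rw [hX]
      rcases hs i with h0 | ⟨k, hk1, hk2⟩
      · rw [h0, map_zero, zero_mul]; exact Submodule.zero_mem _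
      · have h1 := haev k (s i) hk1
        have h2 : W ^ (i : ℕ) ∈ Y.gr ((i : ℕ) * D.m D.i0) := by
          have := SetLike.pow_mem_graded (i : ℕ) hWm
          simpa using this
        have h3 := SetLike.mul_mem_graded h1 h2
        rwa [hk2] at h3
    have h4 : aeval ξ p * y ∈ Y.gr (e + n) := by rw [hy]; exact hval
    rw [hzy]
    exact emb_hom Y.gr (haev e p hpe) hq h4

end Pool.Agent.Helper26.RG
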